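import Pool.Agent.Y976.SG.Stm

/-! Job SG-SER: the power series of `sin (arcsin t - t √(1 - t²))` has nonnegative coefficients
(helper901). -/

set_option autoImplicit false

namespace Pool.Agent.Y901.SG

open Finset Filter Topology
open Pool.Agent.Y976.SG

/-- the double series -/
theorem dsum (c : ℕ → ℝ) (hc : ∀ k, 0 ≤ c k) (hs : Summable fun k => c k * 2 ^ k) {τ : ℝ}
    (h0 : |τ| ≤ 1) :
    ∃ A, HasSum (fun k : ℕ => (-1 : ℝ) ^ k * c k * (τ * (1 - τ)) ^ k) A ∧
      HasSum (fun n : ℕ => (-1 : ℝ) ^ n *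
        (∑ p ∈ antidiagonal n, (p.1.choose p.2 : ℝ) * c p.1) * τ ^ n) A := by
  set f : ℕ × ℕ → ℝ := fun p =>
    (-1 : ℝ) ^ (p.1 + p.2) * ((p.1.choose p.2 : ℝ) * c p.1) * τ ^ (p.1 + p.2) with hf
  have hg : Summable fun p : ℕ × ℕ => (p.1.choose p.2 : ℝ) * c p.1 := by
    have hfin : ∀ k : ℕ, ∀ i ∉ range (k + 1), ((k.choose i : ℕ) : ℝ) * c k = 0 := by
      intro k i hi
      rw [Finset.mem_range, not_lt] at hi
      rw [Nat.choose_eq_zero_of_lt (by omega)]
      simp
    rw [summable_prod_of_nonneg (fun p => mul_nonneg (Nat.cast_nonneg _) (hc _))]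
    refine ⟨fun k => summable_of_ne_finset_zero (hfin k), ?_⟩
    refine hs.congr fun k => ?_
    rw [tsum_eq_sum (hfin k), ← Finset.sum_mul, ← Nat.cast_sum, Nat.sum_range_choose]
    push_cast
    ring
  have hfs : Summable f := by
    refine Summable.of_norm_bounded hg fun p => ?_
    rw [hf]
    simp only
    rw [norm_mul, norm_mul, norm_pow, norm_pow, norm_neg, norm_one, one_pow, one_mul,
      Real.norm_of_nonneg (mul_nonneg (Nat.cast_nonneg _) (hc _))]
    have h1 : ‖τ‖ ^ (p.1 + p.2) ≤ 1 := pow_le_one₀ (norm_nonneg _) h0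
    have h2 : (0 : ℝ) ≤ (p.1.choose p.2 : ℝ) * c p.1 := mul_nonneg (Nat.cast_nonneg _) (hc _)
    calc _ ≤ (p.1.choose p.2 : ℝ) * c p.1 * 1 := mul_le_mul_of_nonneg_left h1 h2
      _ = _ := mul_one _
  refine ⟨∑' p, f p, ?_, ?_⟩
  · refine hfs.hasSum.prod_fiberwise fun k => ?_
    have h1 : (-1 : ℝ) ^ k * c k * (τ * (1 - τ)) ^ k = ∑ i ∈ range (k + 1), f (k, i) := by
      have h2 : (1 - τ) ^ k = ∑ i ∈ range (k + 1), (-τ) ^ i * 1 ^ (k - i) * (k.choose i : ℝ) := by
        rw [← add_pow]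
        congr 1
        ring
      rw [mul_pow, h2, ← mul_assoc, Finset.mul_sum]
      refine Finset.sum_congr rfl fun i _ => ?_
      rw [hf]
      simp only [one_pow, mul_one]
      rw [neg_pow, pow_add, pow_add]
      ring
    rw [h1]
    refine hasSum_sum_of_ne_finset_zero fun i hi => ?_
    rw [Finset.mem_range, not_lt] at hi
    rw [hf]
    simp only
    rw [Nat.choose_eq_zero_of_lt (by omega)]
    simp
  · have h1 : HasSum (f ∘ HasAntidiagonal.sigmaAntidiagonalEquivProd) (∑' p, f p) :=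
      (Equiv.hasSum_iff _).2 hfs.hasSum
    refine h1.sigma fun n => ?_
    have h2 : (-1 : ℝ) ^ n * (∑ p ∈ antidiagonal n, (p.1.choose p.2 : ℝ) * c p.1) * τ ^ n =
        ∑ p ∈ antidiagonal n, f p := by
      rw [Finset.mul_sum, Finset.sum_mul]
      refine Finset.sum_congr rfl fun p hp => ?_
      rw [HasAntidiagonal.mem_antidiagonal] at hp
      rw [hf]
      simp only
      rw [hp]
    rw [h2, ← Finset.sum_coe_sort]
    exact hasSum_fintype _

/-- the coefficients of the two parts -/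
noncomputable def a1 (n : ℕ) : ℝ :=
  (-1 : ℝ) ^ n * ∑ p ∈ antidiagonal n, (p.1.choose p.2 : ℝ) * (1 / ((2 * p.1).factorial : ℝ))

noncomputable def a2 (n : ℕ) : ℝ :=
  (-1 : ℝ) ^ n * ∑ p ∈ antidiagonal n, (p.1.choose p.2 : ℝ) * (1 / ((2 * p.1 + 1).factorial : ℝ))

noncomputable def sh : ℕ → ℝ
  | 0 => 0
  | n + 1 => a2 n

noncomputable def b (n : ℕ) : ℝ := a1 n + sh n

theorem even_term {k i : ℕ} (h : i ≠ k) : (k.choose i : ℝ) * (1 / ((2 * k + 1).factorial : ℝ)) ≤
    (k.choose (i + 1) : ℝ) * (1 / ((2 * k).factorial : ℝ)) := by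
  rcases lt_or_gt_of_ne h with h1 | h1
  · have h2 : k.choose i ≤ (2 * k + 1) * k.choose (i + 1) := by
      have h3 : k.choose (i + 1) * (i + 1) = k.choose i * (k - i) := Nat.choose_succ_right_eq k i
      have h4 : 1 ≤ k - i := by omega
      calc k.choose i ≤ k.choose i * (k - i) := Nat.le_mul_of_pos_right _ (by omega)
        _ = k.choose (i + 1) * (i + 1) := h3.symm
        _ ≤ k.choose (i + 1) * (2 * k + 1) := Nat.mul_le_mul_left _ (by omega)
        _ = _ := by ring
    have h3 : (0 : ℝ) < ((2 * k).factorial : ℝ) := by exact_mod_cast Nat.factorial_pos _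
    rw [Nat.factorial_succ, Nat.cast_mul]
    have h4 : (0 : ℝ) < ((2 * k + 1 : ℕ) : ℝ) := by positivity
    rw [mul_one_div, mul_one_div, div_le_div_iff₀ (by positivity) h3]
    have h5 : (k.choose i : ℝ) ≤ ((2 * k + 1 : ℕ) : ℝ) * (k.choose (i + 1) : ℝ) := by
      exact_mod_cast h2
    calc (k.choose i : ℝ) * ((2 * k).factorial : ℝ)
        ≤ (((2 * k + 1 : ℕ) : ℝ) * (k.choose (i + 1) : ℝ)) * ((2 * k).factorial : ℝ) :=
          mul_le_mul_of_nonneg_right h5 h3.le
      _ = _ := by ring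
  · rw [Nat.choose_eq_zero_of_lt h1]
    have : (0 : ℝ) ≤ (k.choose (i + 1) : ℝ) * (1 / ((2 * k).factorial : ℝ)) := by positivity
    simpa using this

theorem odd_term {k i : ℕ} (h : i ≠ k + 1) :
    ((k + 1).choose i : ℝ) * (1 / ((2 * (k + 1)).factorial : ℝ)) ≤
    (k.choose i : ℝ) * (1 / ((2 * k + 1).factorial : ℝ)) := by
  rcases lt_or_gt_of_ne h with h1 | h1
  · have h2 : (k + 1).choose i ≤ (2 * k + 2) * k.choose i := by
      have h3 : k.choose i * (k + 1) = (k + 1).choose i * (k + 1 - i) := Nat.choose_mul_succ_eq k i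
      calc (k + 1).choose i ≤ (k + 1).choose i * (k + 1 - i) :=
            Nat.le_mul_of_pos_right _ (by omega)
        _ = k.choose i * (k + 1) := h3.symm
        _ ≤ k.choose i * (2 * k + 2) := Nat.mul_le_mul_left _ (by omega)
        _ = _ := by ring
    have h3 : (0 : ℝ) < ((2 * k + 1).factorial : ℝ) := by exact_mod_cast Nat.factorial_pos _
    rw [show 2 * (k + 1) = (2 * k + 1) + 1 by ring, Nat.factorial_succ (2 * k + 1), Nat.cast_mul]
    have h4 : (0 : ℝ) < ((2 * k + 1 + 1 : ℕ) : ℝ) := by positivity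
    rw [mul_one_div, mul_one_div, div_le_div_iff₀ (by positivity) h3]
    have h5 : ((k + 1).choose i : ℝ) ≤ ((2 * k + 1 + 1 : ℕ) : ℝ) * (k.choose i : ℝ) := by
      exact_mod_cast h2
    calc ((k + 1).choose i : ℝ) * ((2 * k + 1).factorial : ℝ)
        ≤ (((2 * k + 1 + 1 : ℕ) : ℝ) * (k.choose i : ℝ)) * ((2 * k + 1).factorial : ℝ) :=
          mul_le_mul_of_nonneg_right h5 h3.le
      _ = _ := by ring
  · rw [Nat.choose_eq_zero_of_lt h1]
    have : (0 : ℝ) ≤ (k.choose i : ℝ) * (1 / ((2 * k + 1).factorial : ℝ)) := by positivity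
    simpa using this

theorem b_nonneg (n : ℕ) : 0 ≤ b n := by
  cases n with
  | zero => simp [b, a1, sh]
  | succ n =>
    show 0 ≤ a1 (n + 1) + a2 n
    unfold a1 a2
    rcases Nat.even_or_odd n with hn | hn
    · rw [hn.neg_one_pow, (hn.add_one).neg_one_pow, Finset.Nat.sum_antidiagonal_succ]
      have h1 : ∑ p ∈ antidiagonal n,
          ((p.1 + 1).choose p.2 : ℝ) * (1 / ((2 * (p.1 + 1)).factorial : ℝ)) ≤
          ∑ p ∈ antidiagonal n, (p.1.choose p.2 : ℝ) * (1 / ((2 * p.1 + 1).factorial : ℝ)) := by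
        refine Finset.sum_le_sum fun p hp => odd_term ?_
        rw [HasAntidiagonal.mem_antidiagonal] at hp
        obtain ⟨m, hm⟩ := hn
        omega
      simp only [Nat.choose_zero_succ, Nat.cast_zero, zero_mul, zero_add]
      linarith
    · rw [hn.neg_one_pow, (hn.add_one).neg_one_pow, Finset.Nat.sum_antidiagonal_succ']
      have h1 : ∑ p ∈ antidiagonal n, (p.1.choose p.2 : ℝ) * (1 / ((2 * p.1 + 1).factorial : ℝ)) ≤
          ∑ p ∈ antidiagonal n, (p.1.choose (p.2 + 1) : ℝ) * (1 / ((2 * p.1).factorial : ℝ)) := by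
        refine Finset.sum_le_sum fun p hp => even_term ?_
        rw [HasAntidiagonal.mem_antidiagonal] at hp
        obtain ⟨m, hm⟩ := hn
        omega
      have h2 : (0 : ℝ) ≤ ((n + 1).choose 0 : ℝ) * (1 / ((2 * (n + 1)).factorial : ℝ)) := by
        positivity
      simp only at h2 ⊢
      linarith

theorem sum_c1 : Summable fun k : ℕ => 1 / ((2 * k).factorial : ℝ) * 2 ^ k := by
  refine Summable.of_nonneg_of_le (fun k => by positivity) (fun k => ?_)
    (Real.summable_pow_div_factorial 2)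
  rw [div_eq_mul_one_div ((2 : ℝ) ^ k), mul_comm]
  have h : (k.factorial : ℝ) ≤ ((2 * k).factorial : ℝ) := by
    exact_mod_cast Nat.factorial_le (by omega)
  have h' : (0 : ℝ) < (k.factorial : ℝ) := by exact_mod_cast Nat.factorial_pos _
  exact mul_le_mul_of_nonneg_left (one_div_le_one_div_of_le h' h) (by positivity)

theorem sum_c2 : Summable fun k : ℕ => 1 / ((2 * k + 1).factorial : ℝ) * 2 ^ k := by
  refine Summable.of_nonneg_of_le (fun k => by positivity) (fun k => ?_)
    (Real.summable_pow_div_factorial 2)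
  rw [div_eq_mul_one_div ((2 : ℝ) ^ k), mul_comm]
  have h : (k.factorial : ℝ) ≤ ((2 * k + 1).factorial : ℝ) := by
    exact_mod_cast Nat.factorial_le (by omega)
  have h' : (0 : ℝ) < (k.factorial : ℝ) := by exact_mod_cast Nat.factorial_pos _
  exact mul_le_mul_of_nonneg_left (one_div_le_one_div_of_le h' h) (by positivity)

/-- the power series with the coefficients `b` at `t²` -/
theorem b_sum {t s : ℝ} (ht : |t| ≤ 1) (hs : s ^ 2 = 1 - t ^ 2) :
    ∃ H, HasSum (fun n => b n * (t ^ 2) ^ n) H ∧ s * H = s * Real.cos (t * s) + t * Real.sin (t * s) := by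
  have hτ : |t ^ 2| ≤ 1 := by
    rw [abs_pow]
    exact pow_le_one₀ (abs_nonneg _) ht
  obtain ⟨A1, h1, h1'⟩ := dsum (fun k => 1 / ((2 * k).factorial : ℝ)) (fun k => by positivity)
    sum_c1 hτ
  obtain ⟨A2, h2, h2'⟩ := dsum (fun k => 1 / ((2 * k + 1).factorial : ℝ))
    (fun k => by positivity) sum_c2 hτ
  have hw : t ^ 2 * (1 - t ^ 2) = (t * s) ^ 2 := by rw [mul_pow, hs]
  rw [hw] at h1 h2
  have e1 : A1 = Real.cos (t * s) := by
    refine h1.unique ?_
    refine (Real.hasSum_cos (t * s)).congr_fun fun k => ?_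
    rw [← pow_mul]
    ring
  have e2 : t * s * A2 = Real.sin (t * s) := by
    refine (h2.mul_left (t * s)).unique ?_
    refine (Real.hasSum_sin (t * s)).congr_fun fun k => ?_
    rw [← pow_mul]
    ring
  refine ⟨A1 + t ^ 2 * A2, ?_, ?_⟩
  · have h3 : HasSum (fun n => sh n * (t ^ 2) ^ n) (t ^ 2 * A2) := by
      have h4 : HasSum (fun n => sh (n + 1) * (t ^ 2) ^ (n + 1)) (t ^ 2 * A2) := by
        refine (h2'.mul_left (t ^ 2)).congr_fun fun n => ?_
        show a2 n * (t ^ 2) ^ (n + 1) = _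
        unfold a2
        ring
      rw [hasSum_nat_add_iff (f := fun n => sh n * (t ^ 2) ^ n) 1] at h4
      simpa [sh] using h4
    refine (h1'.add h3).congr_fun fun n => ?_
    show (a1 n + sh n) * _ = _
    unfold a1
    ring
  · rw [e1, ← e2]
    ring

theorem b_summable : Summable b := by
  obtain ⟨H, hH, -⟩ := b_sum (t := 1) (s := 0) (by simp) (by norm_num)
  simpa using hH.summable

/-- the coefficients of `sin (Psi t)` -/
noncomputable def c (n : ℕ) : ℝ := 2 * b n / (2 * n + 3)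

theorem c_nonneg (n : ℕ) : 0 ≤ c n := by
  have := b_nonneg n
  unfold c
  positivity

theorem c_le (n : ℕ) : c n ≤ b n := by
  have h := b_nonneg n
  unfold c
  rw [div_le_iff₀ (by positivity)]
  nlinarith [(Nat.cast_nonneg n : (0 : ℝ) ≤ (n : ℝ))]

theorem term_le (n : ℕ) {t : ℝ} (ht : |t| ≤ 1) : ‖c n * t ^ (2 * n + 3)‖ ≤ b n := by
  rw [norm_mul, norm_pow, Real.norm_of_nonneg (c_nonneg n)]
  have h1 : ‖t‖ ^ (2 * n + 3) ≤ 1 := pow_le_one₀ (norm_nonneg _) ht
  calc c n * ‖t‖ ^ (2 * n + 3) ≤ c n * 1 := mul_le_mul_of_nonneg_left h1 (c_nonneg n)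
    _ ≤ b n := by rw [mul_one]; exact c_le n

noncomputable def G (t : ℝ) : ℝ := ∑' n : ℕ, c n * t ^ (2 * n + 3)

theorem G_hasSum {t : ℝ} (ht : |t| ≤ 1) : HasSum (fun n : ℕ => c n * t ^ (2 * n + 3)) (G t) :=
  (Summable.of_norm_bounded b_summable fun n => term_le n ht).hasSum

theorem G_deriv {t H : ℝ} (ht : |t| < 1) (hH : HasSum (fun n => b n * (t ^ 2) ^ n) H) :
    HasDerivAt G (2 * t ^ 2 * H) t := by
  have hmem : t ∈ Set.Ioo (-1 : ℝ) 1 := abs_lt.1 ht
  have h := hasDerivAt_tsum_of_isPreconnected (u := fun n => 2 * b n) (t := Set.Ioo (-1 : ℝ) 1)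
    (g := fun (n : ℕ) (z : ℝ) => c n * z ^ (2 * n + 3))
    (g' := fun (n : ℕ) (z : ℝ) => 2 * b n * z ^ (2 * n + 2)) (y₀ := 0) (y := t)
    (b_summable.mul_left 2) isOpen_Ioo isPreconnected_Ioo
    (fun n y _ => by
      have h1 := (hasDerivAt_pow (2 * n + 3) y).const_mul (c n)
      refine h1.congr_deriv ?_
      have h2 : (2 * (n : ℝ) + 3) ≠ 0 := by positivity
      have h3 : c n * (2 * n + 3) = 2 * b n := by
        unfold c
        field_simp
      rw [show 2 * n + 3 - 1 = 2 * n + 2 by omega, ← h3]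
      push_cast
      ring)
    (fun n y hy => by
      rw [norm_mul, norm_pow, Real.norm_of_nonneg (by have := b_nonneg n; positivity)]
      have h1 : ‖y‖ ^ (2 * n + 2) ≤ 1 := pow_le_one₀ (norm_nonneg _) (abs_lt.2 hy).le
      have h2 : 0 ≤ 2 * b n := by have := b_nonneg n; positivity
      calc _ ≤ 2 * b n * 1 := mul_le_mul_of_nonneg_left h1 h2
        _ = _ := mul_one _)
    (by norm_num) (G_hasSum (by simp)).summable hmem
  have h2 : HasSum (fun n : ℕ => 2 * b n * t ^ (2 * n + 2)) (2 * t ^ 2 * H) := by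
    refine (hH.mul_left (2 * t ^ 2)).congr_fun fun n => ?_
    rw [← pow_mul]
    ring
  rw [h2.tsum_eq] at h
  exact h

theorem G_cont : ContinuousOn G (Set.Icc 0 1) := by
  refine continuousOn_tsum (u := b) (fun n => by fun_prop) b_summable fun n t ht => ?_
  exact term_le n (abs_le.2 ⟨by linarith [ht.1], ht.2⟩)

theorem Psi_cont : Continuous Psi := by
  unfold Psi
  have := Real.continuous_arcsin
  fun_prop

theorem Psi_deriv {t : ℝ} (ht : |t| < 1) :
    HasDerivAt Psi (2 * t ^ 2 / √(1 - t ^ 2)) t := by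
  obtain ⟨h1, h2⟩ := abs_lt.1 ht
  have h3 : 0 < 1 - t ^ 2 := by nlinarith
  have h4 : √(1 - t ^ 2) ≠ 0 := (Real.sqrt_pos.2 h3).ne'
  have h5 := Real.hasDerivAt_arcsin (x := t) h1.ne' h2.ne
  have h6 : HasDerivAt (fun t : ℝ => 1 - t ^ 2) (-(2 * t)) t := by
    have := (hasDerivAt_pow 2 t).const_sub 1
    simpa using this
  have h7 := (hasDerivAt_id t).mul (h6.sqrt h3.ne')
  have h8 := h5.sub h7
  refine HasDerivAt.congr_deriv (f := Psi) h8 ?_
  have h9 : √(1 - t ^ 2) ^ 2 = 1 - t ^ 2 := Real.sq_sqrt h3.le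
  simp only [id]
  field_simp
  rw [h9]
  ring

theorem G_eq {t : ℝ} (h0 : 0 ≤ t) (h1 : t ≤ 1) : G t = Real.sin (Psi t) := by
  have hder : ∀ x ∈ Set.Ico (0 : ℝ) 1,
      HasDerivWithinAt (fun t => G t - Real.sin (Psi t)) 0 (Set.Ici x) x := by
    intro x hx
    have hx1 : |x| < 1 := abs_lt.2 ⟨by linarith [hx.1], hx.2⟩
    have h3 : 0 < 1 - x ^ 2 := by nlinarith [hx.1, hx.2]
    have h4 : 0 < √(1 - x ^ 2) := Real.sqrt_pos.2 h3
    obtain ⟨H, hH, hH2⟩ := b_sum (t := x) (s := √(1 - x ^ 2)) hx1.le (Real.sq_sqrt h3.le)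
    have h5 := (G_deriv hx1 hH).sub (Psi_deriv hx1).sin
    refine (h5.congr_deriv ?_).hasDerivWithinAt
    have h6 : Real.cos (Psi x) = √(1 - x ^ 2) * H := by
      unfold Psi
      rw [Real.cos_sub, Real.cos_arcsin, Real.sin_arcsin (by linarith [hx.1]) hx.2.le, hH2]
    rw [h6]
    field_simp
    ring
  have hcont : ContinuousOn (fun t => G t - Real.sin (Psi t)) (Set.Icc 0 1) :=
    G_cont.sub (Real.continuous_sin.comp Psi_cont).continuousOn
  have h2 := constant_of_has_deriv_right_zero hcont hder t ⟨h0, h1⟩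
  have h3 : G 0 - Real.sin (Psi 0) = 0 := by
    simp [G, Psi]
  linarith

theorem main : Pool.Agent.Y976.SG.S_SER := by
  set e : ℕ → ℕ := fun n => 2 * n + 3 with he
  have hinj : Function.Injective e := fun m n h => by
    simp only [he] at h
    omega
  have key : ∀ t : ℝ, |t| ≤ 1 →
      HasSum (fun n => Function.extend e c 0 n * t ^ n) (Real.sin (Psi t)) := by
    intro t ht
    have h1 : HasSum (fun n : ℕ => c n * t ^ (2 * n + 3)) (Real.sin (Psi t)) := by
      rcases le_total 0 t with h0 | h0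
      · rw [← G_eq h0 (abs_le.1 ht).2]
        exact G_hasSum ht
      · have h2 := G_hasSum (t := -t) (by rwa [abs_neg])
        rw [G_eq (by linarith) (by linarith [(abs_le.1 ht).1])] at h2
        have h3 : Psi (-t) = -Psi t := by
          unfold Psi
          rw [Real.arcsin_neg, neg_sq]
          ring
        rw [h3, Real.sin_neg] at h2
        have h4 := h2.neg
        rw [neg_neg] at h4
        refine h4.congr_fun fun n => ?_
        rw [(show Odd (2 * n + 3) from ⟨n + 1, by ring⟩).neg_pow]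
        ring
    refine (hinj.hasSum_iff ?_).1 ?_
    · intro n hn
      rw [Function.extend_apply' _ _ _ (fun h => hn h)]
      simp
    · refine h1.congr_fun fun n => ?_
      show Function.extend e c 0 (e n) * t ^ (e n) = _
      rw [hinj.extend_apply]
  refine ⟨Function.extend e c 0, ?_, ?_, key⟩
  · intro n
    by_cases h : ∃ m, e m = n
    · obtain ⟨m, rfl⟩ := h
      rw [hinj.extend_apply]
      exact c_nonneg m
    · rw [Function.extend_apply' _ _ _ h]
      exact le_rfl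
  · have h := key 1 (by simp)
    have h2 : Real.sin (Psi 1) = 1 := by simp [Psi]
    rw [h2] at h
    simpa using h

end Pool.Agent.Y901.SG
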